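import Pool.Agent.J6H84.TS.Stm

/-!
# Module ORB: orbit-stabilizer and Sylow
-/

set_option autoImplicit false

namespace Pool.Agent.J6H3.TS.Orb

open Finset Pool.Agent.H430R2.PermCubes Pool.Agent.J6H84.LM Pool.Agent.J6H84.TS

/-- the automorphism group -/
def Gam {m n k : ℕ} (C : Fin k → (Fin m → Fin n) → Fin n) : Subgroup (Equiv.Perm (Fin m → Fin n)) where
  carrier := {σ | ∃ π, Aut C π σ}
  one_mem' := ⟨1, fun i => ⟨1, fun x => rfl⟩⟩
  mul_mem' := by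
    rintro σ σ' ⟨π, hπ⟩ ⟨π', hπ'⟩
    refine ⟨π * π', fun i => ?_⟩
    obtain ⟨τ, hτ⟩ := hπ (π' i)
    obtain ⟨τ', hτ'⟩ := hπ' i
    refine ⟨τ * τ', fun x => ?_⟩
    rw [Equiv.Perm.mul_apply, Equiv.Perm.mul_apply, Equiv.Perm.mul_apply, hτ, hτ']
  inv_mem' := by
    rintro σ ⟨π, hπ⟩
    refine ⟨π⁻¹, fun i => ?_⟩
    obtain ⟨τ, hτ⟩ := hπ (π⁻¹ i)
    refine ⟨τ⁻¹, fun x => ?_⟩
    have h := hτ (σ⁻¹ x)
    have e1 : π (π⁻¹ i) = i := Equiv.apply_symm_apply π i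
    have e2 : σ (σ⁻¹ x) = x := Equiv.apply_symm_apply σ x
    rw [e1, e2] at h
    rw [h]
    exact (Equiv.symm_apply_apply τ _).symm

theorem main : S_Orb := by
  intro p hp m k C htr
  have hpos : 0 < p := hp.out.pos
  set x0 : Fin m → Fin p := fun _ => ⟨0, hpos⟩ with hx0
  have horb : MulAction.orbit (Gam C) x0 = Set.univ := by
    apply Set.eq_univ_of_forall
    intro y
    obtain ⟨π, σ, hσ, hxy⟩ := htr x0 y
    exact ⟨⟨σ, π, hσ⟩, hxy⟩
  have hidx : (MulAction.stabilizer (Gam C) x0).index = p ^ m := by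
    rw [MulAction.index_stabilizer, horb, Set.ncard_univ, Nat.card_eq_fintype_card, Fintype.card_fun,
      Fintype.card_fin, Fintype.card_fin]
  have hdvd : p ^ m ∣ Nat.card (Gam C) := by
    rw [← hidx]
    exact Subgroup.index_dvd_card _
  obtain ⟨K, hK⟩ := Sylow.exists_subgroup_card_pow_prime p hdvd
  refine ⟨K.map (Gam C).subtype, ?_, ?_⟩
  · rw [← hK]
    exact Subgroup.card_map_of_injective (Gam C).subtype_injective
  · rintro σ ⟨g, -, rfl⟩
    exact g.2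

end Pool.Agent.J6H3.TS.Orb
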